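import Mathlib

/-!
# Continuous functions on the circle with constant prime coset sums

Turn units: functions on `ℝ` of period `1`. If `φ` is continuous, of period `1`, and for every
prime `p` the sum of `φ` over the cosets of `(1/p)ℤ` is constant, then
`φ(t) = c + a cos(2πt) + b sin(2πt)`.
-/

open scoped BigOperators ComplexConjugate
open MeasureTheory

namespace Pool.Agent.Helper79.HRT

/-- Translation of the argument and Fourier coefficients. -/
theorem fourierCoeff_translate (F : AddCircle (1 : ℝ) → ℂ) (a : AddCircle (1 : ℝ))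
    (n : ℤ) : fourierCoeff (fun t => F (t + a)) n = fourier n a * fourierCoeff F n := by
  rw [fourierCoeff, fourierCoeff]
  have h := integral_add_right_eq_self (μ := AddCircle.haarAddCircle)
    (fun t : AddCircle (1 : ℝ) => fourier n a * (fourier (-n) t • F t)) a
  have h2 : ∀ t : AddCircle (1 : ℝ), fourier (-n) t • F (t + a) =
      fourier n a * (fourier (-n) (t + a) • F (t + a)) := by
    intro t
    have h3 : fourier (-n) (t + a) = fourier (-n) t * fourier (-n) a := by
      simp only [fourier_apply, smul_add, AddCircle.toCircle_add, Circle.coe_mul]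
    have h4 : fourier n a * fourier (-n) a = (1 : ℂ) := by
      rw [← fourier_add, add_neg_cancel, fourier_zero]
    rw [h3, smul_eq_mul, smul_eq_mul]
    linear_combination (-(fourier (-n) t * F (t + a))) * h4
  simp_rw [h2]
  rw [h, integral_const_mul]

theorem fourierCoeff_const_eq_zero (C : ℂ) (n : ℤ) (hn : n ≠ 0) :
    fourierCoeff (fun _ : AddCircle (1 : ℝ) => C) n = 0 := by
  obtain ⟨a, ha⟩ : ∃ a : AddCircle (1 : ℝ), fourier n a ≠ (1 : ℂ) := by
    refine ⟨((1 / (2 * n) : ℝ) : AddCircle (1 : ℝ)), ?_⟩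
    rw [fourier_coe_apply]
    have hn' : (n : ℂ) ≠ 0 := Int.cast_ne_zero.2 hn
    have h1 : 2 * (Real.pi : ℂ) * Complex.I * n * ((1 / (2 * n) : ℝ) : ℂ) /
        ((1 : ℝ) : ℂ) = Real.pi * Complex.I := by
      push_cast
      field_simp
    rw [h1, Complex.exp_pi_mul_I]
    norm_num
  have h := fourierCoeff_translate (fun _ => C) a n
  have h2 : (1 - fourier n a) * fourierCoeff (fun _ : AddCircle (1 : ℝ) => C) n = 0 := by
    rw [sub_mul, one_mul, ← h, sub_self]
  rcases mul_eq_zero.1 h2 with h3 | h3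
  · exact absurd (sub_eq_zero.1 h3).symm ha
  · exact h3

/-- Only the Fourier modes `0`, `1`, `-1` survive. -/
theorem three_modes (φ : ℝ → ℝ) (hc : Continuous φ) (hper : Function.Periodic φ 1)
    (hp : ∀ p : ℕ, p.Prime → ∃ C : ℝ, ∀ t, ∑ i ∈ Finset.range p, φ (t + i / p) = C) :
    ∃ c a b : ℝ, ∀ t, φ t = c + a * Real.cos (2 * Real.pi * t) +
      b * Real.sin (2 * Real.pi * t) := by
  have hper' : Function.Periodic (fun θ : ℝ => ((φ θ : ℝ) : ℂ)) 1 := by
    intro θ
    simp only [hper θ]
  set F0 : AddCircle (1 : ℝ) → ℂ := hper'.lift with hF0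
  have hF0c : Continuous F0 := by
    rw [hF0]
    exact (Complex.continuous_ofReal.comp hc).quotient_lift _
  have hF0v : ∀ θ : ℝ, F0 (θ : AddCircle (1 : ℝ)) = (φ θ : ℂ) := fun θ => rfl
  set F : C(AddCircle (1 : ℝ), ℂ) := ⟨F0, hF0c⟩ with hF
  have hzero : ∀ n : ℤ, n ≠ 0 → n ≠ 1 → n ≠ -1 → fourierCoeff F n = 0 := by
    intro n h0 h1 h2
    have hn1 : n.natAbs ≠ 1 := by omega
    obtain ⟨p, hpp, k, hk⟩ := Nat.exists_prime_and_dvd hn1
    obtain ⟨C, hC⟩ := hp p hpp
    have hp0 : (p : ℂ) ≠ 0 := Nat.cast_ne_zero.2 hpp.ne_zero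
    have hpn : ∃ l : ℤ, n = p * l := by
      have : (p : ℤ) ∣ n := Int.natCast_dvd.2 ⟨k, hk⟩
      exact this
    obtain ⟨l, hl⟩ := hpn
    have hsum : (fun t : AddCircle (1 : ℝ) => ∑ i ∈ Finset.range p,
        F0 (t + ((i / p : ℝ) : AddCircle (1 : ℝ)))) = fun _ => (C : ℂ) := by
      funext t
      induction t using QuotientAddGroup.induction_on with
      | H θ =>
        have h3 := hC θ
        rw [← h3]
        push_cast
        refine Finset.sum_congr rfl fun i _ => ?_
        exact hF0v (θ + i / p)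
    have h3 := congrArg (fun f : AddCircle (1 : ℝ) → ℂ => fourierCoeff f n) hsum
    beta_reduce at h3
    rw [fourierCoeff_const_eq_zero _ n h0] at h3
    have h4 : fourierCoeff (fun t : AddCircle (1 : ℝ) => ∑ i ∈ Finset.range p,
        F0 (t + ((i / p : ℝ) : AddCircle (1 : ℝ)))) n =
        ∑ i ∈ Finset.range p, fourierCoeff (fun t : AddCircle (1 : ℝ) =>
          F0 (t + ((i / p : ℝ) : AddCircle (1 : ℝ)))) n := by
      have h5 := fourierCoeff.sum (T := 1) (Finset.range p)
        (fun i => fun t : AddCircle (1 : ℝ) =>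
          F0 (t + ((i / p : ℝ) : AddCircle (1 : ℝ))))
        (fun i _ => (hF0c.comp (continuous_add_const _)).integrable_of_hasCompactSupport
          (HasCompactSupport.of_compactSpace _))
      have h6 := congrFun h5 n
      rw [Finset.sum_apply] at h6
      rw [← h6]
      congr 1
      funext t
      rw [Finset.sum_apply]
    rw [h4] at h3
    have h7 : ∀ i ∈ Finset.range p, fourierCoeff (fun t : AddCircle (1 : ℝ) =>
          F0 (t + ((i / p : ℝ) : AddCircle (1 : ℝ)))) n =
        fourierCoeff F0 n := by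
      intro i _
      rw [fourierCoeff_translate]
      have h8 : fourier n ((i / p : ℝ) : AddCircle (1 : ℝ)) = (1 : ℂ) := by
        rw [fourier_coe_apply, Complex.exp_eq_one_iff]
        refine ⟨l * i, ?_⟩
        rw [hl]
        push_cast
        field_simp
      rw [h8, one_mul]
    rw [Finset.sum_congr rfl h7, Finset.sum_const, Finset.card_range, nsmul_eq_mul] at h3
    rcases mul_eq_zero.1 h3 with h9 | h9
    · exact absurd h9 hp0
    · exact h9
  have hsupp : ∀ n ∉ ({0, 1, -1} : Finset ℤ), fourierCoeff F n = 0 := by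
    intro n hn
    simp only [Finset.mem_insert, Finset.mem_singleton, not_or] at hn
    exact hzero n hn.1 hn.2.1 hn.2.2
  have hsummable : Summable (fourierCoeff F) := summable_of_ne_finset_zero hsupp
  set c0 := fourierCoeff F 0
  set c1 := fourierCoeff F 1
  set c2 := fourierCoeff F (-1)
  refine ⟨c0.re, c1.re + c2.re, c2.im - c1.im, fun θ => ?_⟩
  have h1 := has_pointwise_sum_fourier_series_of_summable hsummable
    (θ : AddCircle (1 : ℝ))
  have h2 : HasSum (fun i => fourierCoeff F i • fourier i (θ : AddCircle (1 : ℝ)))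
      (∑ i ∈ ({0, 1, -1} : Finset ℤ),
        fourierCoeff F i • fourier i (θ : AddCircle (1 : ℝ))) := by
    apply hasSum_sum_of_ne_finset_zero
    intro n hn
    rw [hsupp n hn, zero_smul]
  have h3 := h1.unique h2
  have h4 : F (θ : AddCircle (1 : ℝ)) = (φ θ : ℂ) := hF0v θ
  rw [h4, Finset.sum_insert (by decide), Finset.sum_insert (by decide),
    Finset.sum_singleton, fourier_coe_apply, fourier_coe_apply, fourier_coe_apply] at h3
  have e0 : 2 * (Real.pi : ℂ) * Complex.I * ((0 : ℤ) : ℂ) * (θ : ℂ) /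
      ((1 : ℝ) : ℂ) = 0 := by simp
  have e1 : 2 * (Real.pi : ℂ) * Complex.I * ((1 : ℤ) : ℂ) * (θ : ℂ) /
      ((1 : ℝ) : ℂ) = ((2 * Real.pi * θ : ℝ) : ℂ) * Complex.I := by
    push_cast
    ring
  have e2 : 2 * (Real.pi : ℂ) * Complex.I * ((-1 : ℤ) : ℂ) * (θ : ℂ) /
      ((1 : ℝ) : ℂ) = ((-(2 * Real.pi * θ) : ℝ) : ℂ) * Complex.I := by
    push_cast
    ring
  rw [e0, e1, e2, Complex.exp_zero] at h3
  have h5 := congrArg Complex.re h3
  simp only [Complex.add_re, smul_eq_mul, Complex.mul_re, Complex.exp_ofReal_mul_I_re,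
    Complex.exp_ofReal_mul_I_im, Complex.ofReal_re, Complex.one_re, Complex.one_im,
    Real.cos_neg, Real.sin_neg] at h5
  rw [h5]
  ring

/-- A continuous function of period `1` with vanishing prime coset sums and vanishing first
Fourier mode is zero. -/
theorem eq_zero_of_modes (φ : ℝ → ℝ) (hc : Continuous φ) (hper : Function.Periodic φ 1)
    (hp : ∀ p : ℕ, p.Prime → ∀ t, ∑ i ∈ Finset.range p, φ (t + i / p) = 0)
    (h1 : ∫ t in (0 : ℝ)..1, (φ t : ℂ) * Complex.exp (-(2 * Real.pi * t * Complex.I)) = 0) :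
    ∀ t, φ t = 0 := by
  obtain ⟨c, a, b, h⟩ := three_modes φ hc hper (fun p hpp => ⟨0, hp p hpp⟩)
  -- the constant vanishes
  have hc0 : c = 0 := by
    have h2 := hp 2 Nat.prime_two 0
    rw [Finset.sum_range_succ, Finset.sum_range_one, h, h] at h2
    have e1 : 2 * Real.pi * (0 + ((1 : ℕ) : ℝ) / ((2 : ℕ) : ℝ)) = Real.pi := by
      push_cast; ring
    rw [e1, Real.cos_pi, Real.sin_pi] at h2
    simp at h2
    linarith
  -- the real and imaginary part of the first mode
  have hcs : ∀ t : ℝ, (φ t : ℂ) * Complex.exp (-(2 * Real.pi * t * Complex.I)) =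
      ((φ t * Real.cos (2 * Real.pi * t) : ℝ) : ℂ) -
        ((φ t * Real.sin (2 * Real.pi * t) : ℝ) : ℂ) * Complex.I := by
    intro t
    have e2 : -(2 * (Real.pi : ℂ) * t * Complex.I) =
      ((-(2 * Real.pi * t) : ℝ) : ℂ) * Complex.I := by push_cast; ring
    rw [e2, Complex.exp_mul_I, ← Complex.ofReal_cos, ← Complex.ofReal_sin, Real.cos_neg,
      Real.sin_neg]
    push_cast
    ring
  have hint : (∫ t in (0 : ℝ)..1, φ t * Real.cos (2 * Real.pi * t) : ℝ) -
      ((∫ t in (0 : ℝ)..1, φ t * Real.sin (2 * Real.pi * t) : ℝ) : ℂ) * Complex.I = 0 := by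
    rw [← h1, intervalIntegral.integral_congr (fun t _ => hcs t),
      intervalIntegral.integral_sub, intervalIntegral.integral_mul_const,
      intervalIntegral.integral_ofReal, intervalIntegral.integral_ofReal]
    · apply Continuous.intervalIntegrable
      fun_prop
    · apply Continuous.intervalIntegrable
      fun_prop
  have hcos : ∫ t in (0 : ℝ)..1, φ t * Real.cos (2 * Real.pi * t) = 0 := by
    have h3 := congrArg Complex.re hint
    simpa using h3
  have hsin : ∫ t in (0 : ℝ)..1, φ t * Real.sin (2 * Real.pi * t) = 0 := by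
    have h3 := congrArg Complex.im hint
    simpa using h3
  have hsq : ∫ t in (0 : ℝ)..1, φ t * φ t = 0 := by
    have h3 : ∀ t, φ t * φ t = a * (φ t * Real.cos (2 * Real.pi * t)) +
        b * (φ t * Real.sin (2 * Real.pi * t)) := by
      intro t
      have h4 := h t
      rw [hc0, zero_add] at h4
      linear_combination (φ t) * h4
    simp_rw [h3]
    rw [intervalIntegral.integral_add, intervalIntegral.integral_const_mul,
      intervalIntegral.integral_const_mul, hcos, hsin]
    · ring
    · apply Continuous.intervalIntegrable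
      fun_prop
    · apply Continuous.intervalIntegrable
      fun_prop
  -- continuity
  have hon : ∀ t ∈ Set.Icc (0 : ℝ) 1, φ t = 0 := by
    by_contra hcon
    push Not at hcon
    obtain ⟨t0, ht0, hne⟩ := hcon
    have hpos : 0 < ∫ t in (0 : ℝ)..1, φ t * φ t := by
      apply intervalIntegral.integral_pos zero_lt_one
      · exact (hc.mul hc).continuousOn
      · intro t _
        exact mul_self_nonneg _
      · exact ⟨t0, ht0, mul_self_pos.2 hne⟩
    linarith
  intro t
  have h4 : φ t = φ (Int.fract t) := by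
    conv_lhs => rw [← Int.fract_add_floor t]
    have := hper.int_mul ⌊t⌋ (Int.fract t)
    simpa using this
  rw [h4]
  exact hon _ ⟨Int.fract_nonneg t, (Int.fract_lt_one t).le⟩

end Pool.Agent.Helper79.HRT
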