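import Mathlib

/-!
# Characters of the plane at the roots of unity: the diophantine lemma

`chi w a = exp (-2 i Im (a conj w))`; `nd N k = exp (2 pi i k / N)` for `k : ZMod N`.
If `chi w` is within `al` of `1` at almost all the nodes then `|w| ≤ 2 al` or `w` is very large.
-/

open scoped BigOperators ComplexConjugate

namespace Pool.Agent.Helper79.HRT

/-- The phase `2 Im (a conj w)`. -/
noncomputable def ph (w a : ℂ) : ℝ := 2 * (a * conj w).im

/-- The character `exp (-2 i Im (a conj w))`. -/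
noncomputable def chi (w a : ℂ) : ℂ := Complex.exp (Complex.I * ((-ph w a : ℝ) : ℂ))

/-- The nodes `exp (2 pi i k / N)`. -/
noncomputable def nd (N : ℕ) [NeZero N] (k : ZMod N) : ℂ := ZMod.stdAddChar k

theorem norm_chi (w a : ℂ) : ‖chi w a‖ = 1 := by
  rw [chi, Complex.norm_exp]
  simp

theorem chi_zero_left (a : ℂ) : chi 0 a = 1 := by simp [chi, ph]

theorem chi_zero_right (w : ℂ) : chi w 0 = 1 := by simp [chi, ph]

theorem chi_add_right (w a b : ℂ) : chi w (a + b) = chi w a * chi w b := by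
  rw [chi, chi, chi, ← Complex.exp_add]
  congr 1
  simp only [ph, add_mul, Complex.add_im]
  push_cast
  ring

theorem chi_add_left (w w' a : ℂ) : chi (w + w') a = chi w a * chi w' a := by
  rw [chi, chi, chi, ← Complex.exp_add]
  congr 1
  simp only [ph, map_add, mul_add, Complex.add_im]
  push_cast
  ring

theorem chi_neg_right (w a : ℂ) : chi w (-a) = (chi w a)⁻¹ := by
  rw [chi, chi, ← Complex.exp_neg]
  congr 1
  simp only [ph, neg_mul, Complex.neg_im]
  push_cast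
  ring

theorem chi_neg_left (w a : ℂ) : chi (-w) a = (chi w a)⁻¹ := by
  rw [chi, chi, ← Complex.exp_neg]
  congr 1
  simp only [ph, map_neg, mul_neg, Complex.neg_im]
  push_cast
  ring

theorem chi_conj (w a : ℂ) : (starRingEnd ℂ) (chi w a) = (chi w a)⁻¹ :=
  (Complex.inv_eq_conj (norm_chi w a)).symm

theorem chi_mul_right (w a c : ℂ) : chi w (a * c) = chi (conj c * w) a := by
  rw [chi, chi, ph, ph, map_mul, Complex.conj_conj, mul_assoc]

theorem chi_sub_one (w a b : ℂ) : ‖chi w (a - b) - 1‖ ≤ ‖chi w a - 1‖ + ‖chi w b - 1‖ := by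
  have hb : chi w b ≠ 0 := by
    intro h
    have := norm_chi w b
    rw [h, norm_zero] at this
    exact zero_ne_one this
  have h1 : chi w (a - b) - 1 = (chi w b)⁻¹ * ((chi w a - 1) - (chi w b - 1)) := by
    rw [sub_eq_add_neg a b, chi_add_right, chi_neg_right]
    field_simp
    ring
  rw [h1, norm_mul, norm_inv, norm_chi, inv_one, one_mul]
  exact norm_sub_le _ _

theorem nd_add (N : ℕ) [NeZero N] (j k : ZMod N) : nd N (j + k) = nd N j * nd N k :=
  AddChar.map_add_eq_mul _ _ _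

theorem norm_nd (N : ℕ) [NeZero N] (k : ZMod N) : ‖nd N k‖ = 1 := by
  rw [nd, ZMod.stdAddChar_apply]
  exact Circle.norm_coe _

theorem nd_one (N : ℕ) [NeZero N] :
    nd N 1 = Complex.exp (Complex.I * ((2 * Real.pi / N : ℝ) : ℂ)) := by
  have h := ZMod.stdAddChar_coe (N := N) 1
  rw [nd]
  simp only [Int.cast_one, mul_one] at h
  rw [h]
  congr 1
  push_cast
  ring

/-- The bad nodes. -/
noncomputable def bad (N : ℕ) [NeZero N] (w : ℂ) (al : ℝ) : Finset (ZMod N) :=
  Finset.univ.filter fun k => al < ‖chi w (nd N k) - 1‖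

theorem mem_bad {N : ℕ} [NeZero N] {w : ℂ} {al : ℝ} {k : ZMod N} :
    k ∈ bad N w al ↔ al < ‖chi w (nd N k) - 1‖ := by
  simp [bad]

/-- One difference. -/
theorem bad_step (N : ℕ) [NeZero N] (w : ℂ) (al : ℝ) (j : ZMod N) :
    (bad N (conj (1 - nd N j) * w) (2 * al)).card ≤ 2 * (bad N w al).card := by
  have hsub : bad N (conj (1 - nd N j) * w) (2 * al) ⊆
      bad N w al ∪ (bad N w al).image (fun k => k - j) := by
    intro k hk
    rw [mem_bad, ← chi_mul_right, mul_sub, mul_one, ← nd_add] at hk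
    rw [Finset.mem_union]
    by_contra hcon
    push Not at hcon
    obtain ⟨h1, h2⟩ := hcon
    rw [mem_bad, not_lt] at h1
    have h3 : k + j ∉ bad N w al := by
      intro h
      exact h2 (Finset.mem_image.2 ⟨k + j, h, by ring⟩)
    rw [mem_bad, not_lt] at h3
    have := chi_sub_one w (nd N k) (nd N (k + j))
    linarith
  calc (bad N (conj (1 - nd N j) * w) (2 * al)).card
      ≤ (bad N w al ∪ (bad N w al).image (fun k => k - j)).card := Finset.card_le_card hsub
    _ ≤ (bad N w al).card + ((bad N w al).image (fun k => k - j)).card :=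
        Finset.card_union_le _ _
    _ ≤ (bad N w al).card + (bad N w al).card := by
        exact Nat.add_le_add_left Finset.card_image_le _
    _ = 2 * (bad N w al).card := by ring

theorem bad_iter (N : ℕ) [NeZero N] (w : ℂ) (al : ℝ) (j : ZMod N) (t : ℕ) :
    (bad N (conj (1 - nd N j) ^ t * w) (2 ^ t * al)).card ≤ 2 ^ t * (bad N w al).card := by
  induction t with
  | zero => simp
  | succ t ih =>
    have h := bad_step N (conj (1 - nd N j) ^ t * w) (2 ^ t * al) j
    have e1 : conj (1 - nd N j) * (conj (1 - nd N j) ^ t * w) =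
        conj (1 - nd N j) ^ (t + 1) * w := by ring
    have e2 : 2 * (2 ^ t * al) = 2 ^ (t + 1) * al := by ring
    rw [e1, e2] at h
    calc _ ≤ _ := h
      _ ≤ 2 * (2 ^ t * (bad N w al).card) := by gcongr
      _ = _ := by ring

theorem abs_ph_le (w a : ℂ) (ha : ‖a‖ = 1) : |ph w a| ≤ 2 * ‖w‖ := by
  rw [ph, abs_mul, abs_two]
  gcongr
  calc |(a * conj w).im| ≤ ‖a * conj w‖ := Complex.abs_im_le_norm _
    _ = ‖w‖ := by rw [norm_mul, ha, one_mul, RCLike.norm_conj]

/-- The sum of the squares of the phases. -/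
theorem sum_ph_sq (N : ℕ) [NeZero N] (hN : 3 ≤ N) (w : ℂ) :
    ∑ k : ZMod N, ph w (nd N k) ^ 2 = 2 * N * ‖w‖ ^ 2 := by
  have hz : ∑ k : ZMod N, nd N k * nd N k = 0 := by
    have h1 : ∀ k : ZMod N, nd N k * nd N k = ZMod.stdAddChar ((2 : ZMod N) * k) := by
      intro k
      rw [← nd_add, two_mul]
      rfl
    rw [Finset.sum_congr rfl fun k _ => h1 k]
    have h2 := AddChar.sum_mulShift (R := ZMod N) (R' := ℂ) (b := 2)
      (ZMod.isPrimitive_stdAddChar N)
    have h3 : (2 : ZMod N) ≠ 0 := by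
      intro h
      have h4 : ((2 : ℕ) : ZMod N) = 0 := by exact_mod_cast h
      rw [ZMod.natCast_eq_zero_iff] at h4
      have := Nat.le_of_dvd (by norm_num) h4
      omega
    rw [if_neg h3] at h2
    simpa [mul_comm] using h2
  have hsq : ∀ k : ZMod N, ph w (nd N k) ^ 2 =
      2 * ‖w‖ ^ 2 - 2 * ((nd N k * nd N k) * (conj w * conj w)).re := by
    intro k
    have h1 : (nd N k * nd N k) * (conj w * conj w) = (nd N k * conj w) ^ 2 := by ring
    have h2 : ‖nd N k * conj w‖ ^ 2 = ‖w‖ ^ 2 := by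
      rw [norm_mul, norm_nd, one_mul, RCLike.norm_conj]
    rw [h1, ph, ← h2]
    generalize nd N k * conj w = z
    have hre : (z ^ 2).re = z.re * z.re - z.im * z.im := by rw [pow_two, Complex.mul_re]
    rw [← Complex.normSq_eq_norm_sq, Complex.normSq_apply, hre]
    ring
  rw [Finset.sum_congr rfl fun k _ => hsq k, Finset.sum_sub_distrib, Finset.sum_const,
    Finset.card_univ, ZMod.card, ← Finset.mul_sum, ← Complex.re_sum, ← Finset.sum_mul, hz]
  simp
  ring

theorem ph_le_of_chi (w a : ℂ) (h1 : |ph w a| ≤ 1 / 2) (al : ℝ) (h : ‖chi w a - 1‖ ≤ al) :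
    |ph w a| ≤ 2 * al := by
  rw [chi, Complex.norm_exp_I_mul_ofReal_sub_one, Real.norm_eq_abs, abs_mul, abs_two] at h
  have hx : |(-ph w a) / 2| ≤ Real.pi / 2 := by
    rw [abs_div, abs_neg, abs_two]
    have := Real.pi_gt_three
    linarith
  have h2 := Real.mul_abs_le_abs_sin hx
  rw [abs_div, abs_neg, abs_two] at h2
  have hpi : Real.pi < 4 := Real.pi_lt_four
  have hpi0 : 0 < Real.pi := Real.pi_pos
  have h3 : 2 / Real.pi * (|ph w a| / 2) = |ph w a| / Real.pi := by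
    field_simp
  rw [h3] at h2
  have h4 : |ph w a| / Real.pi ≤ al / 2 := by linarith
  rw [div_le_iff₀ hpi0] at h4
  have h5 : 0 ≤ al := by
    by_contra hc
    push Not at hc
    have := abs_nonneg (ph w a)
    nlinarith
  nlinarith [abs_nonneg (ph w a)]

/-- The case of a small `w`. -/
theorem dio_small (N : ℕ) [NeZero N] (hN : 3 ≤ N) (w : ℂ) (al : ℝ) (h0 : 0 ≤ al)
    (hw : 2 * ‖w‖ ≤ 1 / 2) (hb : ((bad N w al).card : ℝ) ≤ N / 4) : ‖w‖ ≤ 2 * al := by
  have hNp : (0 : ℝ) < N := by positivity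
  have hsum := sum_ph_sq N hN w
  have hle : ∑ k : ZMod N, ph w (nd N k) ^ 2 ≤
      ∑ k : ZMod N, ((2 * al) ^ 2 + if k ∈ bad N w al then (2 * ‖w‖) ^ 2 else 0) := by
    refine Finset.sum_le_sum fun k _ => ?_
    have habs := abs_ph_le w (nd N k) (norm_nd N k)
    split_ifs with hk
    · have : ph w (nd N k) ^ 2 ≤ (2 * ‖w‖) ^ 2 := by
        rw [← sq_abs]
        gcongr
      have h3 : 0 ≤ (2 * al) ^ 2 := sq_nonneg _
      linarith
    · rw [mem_bad, not_lt] at hk
      have h2 := ph_le_of_chi w (nd N k) (habs.trans hw) al hk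
      have : ph w (nd N k) ^ 2 ≤ (2 * al) ^ 2 := by
        rw [← sq_abs]
        gcongr
      linarith
  rw [hsum, Finset.sum_add_distrib, Finset.sum_const, Finset.card_univ, ZMod.card,
    Finset.sum_ite_mem, Finset.univ_inter, Finset.sum_const, nsmul_eq_mul, nsmul_eq_mul] at hle
  have h4 : ((bad N w al).card : ℝ) * (2 * ‖w‖) ^ 2 ≤ N / 4 * (2 * ‖w‖) ^ 2 := by gcongr
  have h5 : (N : ℝ) * ‖w‖ ^ 2 ≤ N * (2 * al) ^ 2 := by nlinarith
  have h6 : ‖w‖ ^ 2 ≤ (2 * al) ^ 2 := le_of_mul_le_mul_left h5 hNp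
  exact le_of_sq_le_sq h6 (by positivity)

/-- Doubling the index. -/
theorem nd_double (N : ℕ) [NeZero N] (j : ZMod N) :
    ‖1 - nd N (j + j)‖ = ‖1 - nd N j‖ * ‖1 + nd N j‖ := by
  rw [← norm_mul, nd_add]
  congr 1
  ring

theorem nd_double_le (N : ℕ) [NeZero N] (j : ZMod N) :
    ‖1 - nd N (j + j)‖ ≤ 2 * ‖1 - nd N j‖ := by
  rw [nd_double, mul_comm]
  gcongr
  calc ‖1 + nd N j‖ ≤ ‖(1 : ℂ)‖ + ‖nd N j‖ := norm_add_le _ _
    _ = 2 := by rw [norm_one, norm_nd]; norm_num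

theorem nd_double_ge (N : ℕ) [NeZero N] (j : ZMod N) (h : ‖1 - nd N j‖ ≤ 1) :
    3 / 2 * ‖1 - nd N j‖ ≤ ‖1 - nd N (j + j)‖ := by
  rw [nd_double, mul_comm]
  gcongr
  have hpar : ‖1 + nd N j‖ ^ 2 + ‖1 - nd N j‖ ^ 2 = 4 := by
    have h1 := parallelogram_law_with_norm ℝ (1 : ℂ) (nd N j)
    rw [norm_one, norm_nd] at h1
    nlinarith
  have h0 := norm_nonneg (1 - nd N j)
  have h3 := norm_nonneg (1 + nd N j)
  by_contra hc
  push Not at hc
  nlinarith

/-- The choice of the last difference. -/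
theorem exists_shift (N : ℕ) [NeZero N] (A : ℝ) (hA : 1 / 2 < A) (h1 : nd N 1 ≠ 1)
    (h0 : ‖1 - nd N 1‖ * A ≤ 1 / 2) :
    ∃ j : ZMod N, 1 / 4 < ‖1 - nd N j‖ * A ∧ ‖1 - nd N j‖ * A ≤ 1 / 2 := by
  set v : ℕ → ℝ := fun i => ‖1 - nd N ((2 ^ i : ℕ) : ZMod N)‖ with hv
  have hdbl : ∀ i, (((2 ^ (i + 1) : ℕ) : ZMod N)) = ((2 ^ i : ℕ) : ZMod N) + ((2 ^ i : ℕ) : ZMod N) := by
    intro i
    rw [pow_succ]
    push_cast
    ring
  have hv0 : 0 < v 0 := by
    simp only [hv, pow_zero, Nat.cast_one]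
    rw [norm_pos_iff, sub_ne_zero]
    exact h1.symm
  have hex : ∃ i, 1 / 2 < v i * A := by
    by_contra hcon
    push Not at hcon
    have hlt : ∀ i, v i ≤ 1 := by
      intro i
      by_contra hc
      push Not at hc
      have := hcon i
      nlinarith
    have hgrow : ∀ i, (3 / 2 : ℝ) ^ i * v 0 ≤ v i := by
      intro i
      induction i with
      | zero => simp
      | succ i ih =>
        have := nd_double_ge N ((2 ^ i : ℕ) : ZMod N) (hlt i)
        rw [← hdbl] at this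
        calc (3 / 2 : ℝ) ^ (i + 1) * v 0 = 3 / 2 * ((3 / 2) ^ i * v 0) := by ring
          _ ≤ 3 / 2 * v i := by gcongr
          _ ≤ v (i + 1) := this
    obtain ⟨n, hn⟩ := pow_unbounded_of_one_lt (1 / v 0) (by norm_num : (1 : ℝ) < 3 / 2)
    have h3 := hgrow n
    have h4 := hlt n
    rw [div_lt_iff₀ hv0] at hn
    linarith
  classical
  have hfind := Nat.find_spec hex
  set i := Nat.find hex with hi
  rcases Nat.eq_zero_or_pos i with h | h
  · exfalso
    rw [h] at hfind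
    simp only [hv, pow_zero, Nat.cast_one] at hfind
    linarith
  · obtain ⟨i', hi'⟩ := Nat.exists_eq_succ_of_ne_zero h.ne'
    have hlt : ¬ (1 / 2 < v i' * A) := Nat.find_min hex (by omega)
    push Not at hlt
    refine ⟨((2 ^ i' : ℕ) : ZMod N), ?_, hlt⟩
    rw [hi', Nat.succ_eq_add_one] at hfind
    have h3 := nd_double_le N ((2 ^ i' : ℕ) : ZMod N)
    rw [← hdbl] at h3
    have h4 : v (i' + 1) * A ≤ 2 * v i' * A := by
      gcongr
    have h5 : 1 / 2 < 2 * v i' * A := lt_of_lt_of_le hfind h4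
    change 1 / 4 < v i' * A
    linarith

/-- The diophantine lemma. -/
theorem dio (N : ℕ) [NeZero N] (hN : 7 ≤ N) (m : ℕ) (w : ℂ) (al : ℝ) (h0 : 0 ≤ al)
    (h1 : 2 ^ m * al ≤ 1 / 100)
    (hb : ((bad N w al).card : ℝ) ≤ N / (100 * 2 ^ m)) :
    ‖w‖ ≤ 2 * al ∨ (N / (2 * Real.pi)) ^ (m - 1) < 4 * ‖w‖ := by
  by_contra hcon
  push Not at hcon
  obtain ⟨hc1, hc2⟩ := hcon
  have hNp : (0 : ℝ) < N := by positivity
  have hN3 : 3 ≤ N := by omega
  have h2m : (1 : ℝ) ≤ 2 ^ m := one_le_pow₀ (by norm_num)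
  have hbig : 1 / 2 < 2 * ‖w‖ := by
    by_contra hc
    push Not at hc
    have hb' : ((bad N w al).card : ℝ) ≤ N / 4 := by
      refine hb.trans ?_
      rw [div_le_div_iff_of_pos_left hNp (by positivity) (by norm_num)]
      nlinarith
    exact absurd (dio_small N hN3 w al h0 hc hb') (not_le.2 hc1)
  set ep : ℝ := ‖1 - nd N 1‖ with hep
  have hne : nd N 1 ≠ 1 := by
    intro h
    have h3 : nd N 1 = nd N 0 := by
      rw [h]
      exact (AddChar.map_zero_eq_one _).symm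
    have h4 := ZMod.injective_stdAddChar h3
    have : Fact (1 < N) := ⟨by omega⟩
    exact one_ne_zero h4
  have hep0 : 0 < ep := by
    rw [hep, norm_pos_iff, sub_ne_zero]
    exact hne.symm
  have hep1 : ep ≤ 2 * Real.pi / N := by
    rw [hep, norm_sub_rev, nd_one]
    refine (Real.norm_exp_I_mul_ofReal_sub_one_le).trans ?_
    rw [Real.norm_eq_abs, abs_of_nonneg (by positivity)]
  have hlt1 : 2 * Real.pi / N < 1 := by
    rw [div_lt_one hNp]
    have h7 : (7 : ℝ) ≤ N := by exact_mod_cast hN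
    have := Real.pi_lt_d2
    linarith
  have hex : ∃ t : ℕ, 2 * ‖w‖ * ep ^ t ≤ 1 / 2 := by
    have hw0 : 0 < 2 * ‖w‖ := by linarith
    obtain ⟨n, hn⟩ := exists_pow_lt_of_lt_one (show (0 : ℝ) < 1 / 2 / (2 * ‖w‖) by positivity)
      (hep1.trans_lt hlt1)
    refine ⟨n, ?_⟩
    rw [lt_div_iff₀ hw0] at hn
    linarith
  have hfind := Nat.find_spec hex
  set s := Nat.find hex with hs
  rcases Nat.eq_zero_or_pos s with h | h
  · rw [h, pow_zero, mul_one] at hfind
    linarith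
  obtain ⟨t, ht⟩ := Nat.exists_eq_succ_of_ne_zero h.ne'
  have hgt : ¬ (2 * ‖w‖ * ep ^ t ≤ 1 / 2) := Nat.find_min hex (by omega)
  push Not at hgt
  -- the number of steps
  have htm : t + 1 ≤ m := by
    by_contra hc
    have hm1 : m - 1 ≤ t := by omega
    have h3 : ep ^ t ≤ ep ^ (m - 1) := pow_le_pow_of_le_one hep0.le (by linarith) hm1
    have h4 : ep ^ (m - 1) ≤ (2 * Real.pi / N) ^ (m - 1) := by gcongr
    have h5 : 2 * ‖w‖ * ep ^ t ≤
        1 / 2 * (N / (2 * Real.pi)) ^ (m - 1) * (2 * Real.pi / N) ^ (m - 1) := by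
      calc 2 * ‖w‖ * ep ^ t ≤ 2 * ‖w‖ * (2 * Real.pi / N) ^ (m - 1) := by
            gcongr
            exact h3.trans h4
        _ ≤ 1 / 2 * (N / (2 * Real.pi)) ^ (m - 1) * (2 * Real.pi / N) ^ (m - 1) :=
            mul_le_mul_of_nonneg_right (by linarith) (by positivity)
    have h6 : 1 / 2 * (N / (2 * Real.pi)) ^ (m - 1) * (2 * Real.pi / N) ^ (m - 1) = 1 / 2 := by
      rw [mul_assoc, ← mul_pow]
      have : (N : ℝ) / (2 * Real.pi) * (2 * Real.pi / N) = 1 := by
        have hpi := Real.pi_pos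
        field_simp
      rw [this, one_pow, mul_one]
    linarith
  -- the differences
  set w1 : ℂ := conj (1 - nd N 1) ^ t * w with hw1
  have hnw1 : 2 * ‖w1‖ = 2 * ‖w‖ * ep ^ t := by
    rw [hw1, norm_mul, norm_pow, RCLike.norm_conj, ← hep]
    ring
  have hb1 := bad_iter N w al 1 t
  rw [← hw1] at hb1
  obtain ⟨j, hj1, hj2⟩ := exists_shift N (2 * ‖w1‖) (by rw [hnw1]; exact hgt) hne (by
    rw [hnw1, ← hep]
    rw [ht, Nat.succ_eq_add_one, pow_succ] at hfind
    linarith)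
  have hb2 := bad_step N w1 (2 ^ t * al) j
  set w2 : ℂ := conj (1 - nd N j) * w1 with hw2
  have hnw2 : 2 * ‖w2‖ = ‖1 - nd N j‖ * (2 * ‖w1‖) := by
    rw [hw2, norm_mul, RCLike.norm_conj]
    ring
  have h2t : (2 : ℝ) ^ (t + 1) ≤ 2 ^ m := pow_le_pow_right₀ (by norm_num) htm
  have hal2 : 2 * (2 ^ t * al) ≤ 1 / 100 := by
    calc 2 * (2 ^ t * al) = 2 ^ (t + 1) * al := by ring
      _ ≤ 2 ^ m * al := by gcongr
      _ ≤ 1 / 100 := h1
  have hb3 : ((bad N w2 (2 * (2 ^ t * al))).card : ℝ) ≤ N / 4 := by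
    have h3 : (bad N w2 (2 * (2 ^ t * al))).card ≤ 2 ^ (t + 1) * (bad N w al).card := by
      calc _ ≤ _ := hb2
        _ ≤ 2 * (2 ^ t * (bad N w al).card) := by gcongr
        _ = _ := by ring
    calc ((bad N w2 (2 * (2 ^ t * al))).card : ℝ) ≤ 2 ^ (t + 1) * ((bad N w al).card : ℝ) := by
          exact_mod_cast h3
      _ ≤ 2 ^ m * (N / (100 * 2 ^ m)) := by gcongr
      _ = N / 100 := by field_simp
      _ ≤ N / 4 := by gcongr; norm_num
  have hfin := dio_small N hN3 w2 (2 * (2 ^ t * al)) (by positivity) (by rw [hnw2]; exact hj2) hb3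
  have h8 : 1 / 4 < 2 * ‖w2‖ := by rw [hnw2]; exact hj1
  linarith

end Pool.Agent.Helper79.HRT
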