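import Mathlib
import Pool.Agent.Helper79.HRT.Dio
import Pool.Agent.Helper79.HRT.Modes

/-!
# Rigidity: unimodular functions with trivial prime coset products

Turn units. A unimodular function of period `1` which is continuous off a finite set modulo `1`
and whose products over the cosets of `(1/p)ℤ` are `1` for all primes `p` is a character
`t ↦ chi τ (exp (2πi t))`.
-/

open scoped BigOperators ComplexConjugate Topology
open MeasureTheory

namespace Pool.Agent.Helper79.HRT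

/-- The point `exp (2πi t)` of the circle. -/
noncomputable def node (t : ℝ) : ℂ := Complex.exp (2 * Real.pi * t * Complex.I)

theorem chi_node (w : ℂ) (t : ℝ) : chi w (node t) =
    Complex.exp (Complex.I * ((2 * w.im * Real.cos (2 * Real.pi * t) -
      2 * w.re * Real.sin (2 * Real.pi * t) : ℝ) : ℂ)) := by
  rw [chi, ph, node]
  congr 2
  have e : 2 * (Real.pi : ℂ) * t * Complex.I = ((2 * Real.pi * t : ℝ) : ℂ) * Complex.I := by
    push_cast; ring
  rw [e, Complex.mul_im, Complex.exp_ofReal_mul_I_re, Complex.exp_ofReal_mul_I_im,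
    Complex.conj_re, Complex.conj_im]
  congr 1
  ring

/-- A continuous unimodular function has a continuous lift. -/
theorem exists_lift (ze : ℝ → ℂ) (hc : Continuous ze) (hnorm : ∀ t, ‖ze t‖ = 1) :
    ∃ φ : ℝ → ℝ, Continuous φ ∧ ∀ t, ze t = Complex.exp (Complex.I * (φ t : ℂ)) := by
  set f : C(ℝ, Circle) := ⟨fun t => ⟨ze t, mem_sphere_zero_iff_norm.2 (hnorm t)⟩,
    hc.subtype_mk _⟩ with hf
  obtain ⟨e0, he0⟩ := Circle.exp_surjective (f 0)
  obtain ⟨F, ⟨-, hF⟩, -⟩ :=
    Circle.isCoveringMap_exp.existsUnique_continuousMap_lifts f 0 e0 he0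
  refine ⟨F, F.continuous, fun t => ?_⟩
  have h1 := congrFun hF t
  have h2 := congrArg (fun z : Circle => (z : ℂ)) h1
  simp only [Function.comp, Circle.coe_exp] at h2
  rw [mul_comm, h2]
  rfl

/-- A continuous function with values in `2πℤ` is constant. -/
theorem const_of_exp (f : ℝ → ℝ) (hc : Continuous f)
    (h : ∀ t, Complex.exp (Complex.I * (f t : ℂ)) = 1) : ∃ k : ℤ, ∀ t, f t = 2 * Real.pi * k := by
  have hmem : ∀ t, f t ∈ (AddSubgroup.zmultiples (2 * Real.pi) : Set ℝ) := by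
    intro t
    obtain ⟨k, hk⟩ := Complex.exp_eq_one_iff.1 (h t)
    refine AddSubgroup.mem_zmultiples_iff.2 ⟨k, ?_⟩
    have h1 : (f t : ℂ) = k * (2 * Real.pi) := by
      have h2 : Complex.I * (f t : ℂ) = Complex.I * (k * (2 * Real.pi)) := by
        rw [hk]; ring
      exact mul_left_cancel₀ Complex.I_ne_zero h2
    have h3 : f t = k * (2 * Real.pi) := by exact_mod_cast h1
    rw [h3, zsmul_eq_mul]
  have hdis : IsDiscrete (AddSubgroup.zmultiples (2 * Real.pi) : Set ℝ) := by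
    rw [isDiscrete_iff_discreteTopology]
    exact inferInstanceAs (DiscreteTopology (AddSubgroup.zmultiples (2 * Real.pi)))
  obtain ⟨k, hk⟩ := AddSubgroup.mem_zmultiples_iff.1 (hmem 0)
  refine ⟨k, fun t => ?_⟩
  have h1 := isPreconnected_univ.constant_of_mapsTo hdis hc.continuousOn
    (fun x _ => hmem x) (Set.mem_univ t) (Set.mem_univ 0)
  rw [h1, ← hk, zsmul_eq_mul]
  ring

/-- The continuous case. -/
theorem rigidity_continuous (ze : ℝ → ℂ) (hc : Continuous ze) (hnorm : ∀ t, ‖ze t‖ = 1)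
    (hprod : ∀ p : ℕ, p.Prime → ∀ t, ∏ i ∈ Finset.range p, ze (t + i / p) = 1) :
    ∃ τ : ℂ, ∀ t, ze t = chi τ (node t) := by
  obtain ⟨φ, hφc, hφ⟩ := exists_lift ze hc hnorm
  -- the sums over cosets
  have hsum : ∀ p : ℕ, p.Prime → ∃ k : ℤ, ∀ t,
      ∑ i ∈ Finset.range p, φ (t + i / p) = 2 * Real.pi * k := by
    intro p hp
    apply const_of_exp
    · fun_prop
    · intro t
      rw [← hprod p hp t, Complex.ofReal_sum, Finset.mul_sum, Complex.exp_sum]
      exact Finset.prod_congr rfl fun i _ => (hφ _).symm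
  have hφper : Function.Periodic φ 1 := by
    intro t
    obtain ⟨k, hk⟩ := hsum 2 Nat.prime_two
    have h1 := hk t
    have h2 := hk (t + 1 / 2)
    rw [Finset.sum_range_succ, Finset.sum_range_one] at h1 h2
    have e1 : t + ((0 : ℕ) : ℝ) / ((2 : ℕ) : ℝ) = t := by simp
    have e2 : t + ((1 : ℕ) : ℝ) / ((2 : ℕ) : ℝ) = t + 1 / 2 := by norm_num
    have e3 : t + 1 / 2 + ((0 : ℕ) : ℝ) / ((2 : ℕ) : ℝ) = t + 1 / 2 := by simp
    have e4 : t + 1 / 2 + ((1 : ℕ) : ℝ) / ((2 : ℕ) : ℝ) = t + 1 := by push_cast; ring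
    rw [e1, e2] at h1
    rw [e3, e4] at h2
    linarith
  obtain ⟨c, a, b, hcab⟩ := three_modes φ hφc hφper (fun p hp => by
    obtain ⟨k, hk⟩ := hsum p hp
    exact ⟨_, hk⟩)
  -- the constant
  obtain ⟨k2, hk2⟩ := hsum 2 Nat.prime_two
  obtain ⟨k3, hk3⟩ := hsum 3 Nat.prime_three
  have h2 : 2 * c = 2 * Real.pi * k2 := by
    have h := hk2 0
    rw [Finset.sum_range_succ, Finset.sum_range_one, hcab, hcab] at h
    have e1 : 2 * Real.pi * (0 + ((0 : ℕ) : ℝ) / ((2 : ℕ) : ℝ)) = 0 := by simp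
    have e2 : 2 * Real.pi * (0 + ((1 : ℕ) : ℝ) / ((2 : ℕ) : ℝ)) = Real.pi := by
      push_cast; ring
    rw [e1, e2, Real.cos_pi, Real.sin_pi, Real.cos_zero, Real.sin_zero] at h
    linarith
  have h3 : 3 * c = 2 * Real.pi * k3 := by
    have h := hk3 0
    rw [Finset.sum_range_succ, Finset.sum_range_succ, Finset.sum_range_one, hcab, hcab, hcab] at h
    have e1 : 2 * Real.pi * (0 + ((0 : ℕ) : ℝ) / ((3 : ℕ) : ℝ)) = 0 := by simp
    have e2 : 2 * Real.pi * (0 + ((1 : ℕ) : ℝ) / ((3 : ℕ) : ℝ)) = Real.pi - Real.pi / 3 := by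
      push_cast; ring
    have e3 : 2 * Real.pi * (0 + ((2 : ℕ) : ℝ) / ((3 : ℕ) : ℝ)) = Real.pi / 3 + Real.pi := by
      push_cast; ring
    rw [e1, e2, e3, Real.cos_pi_sub, Real.sin_pi_sub, Real.cos_add_pi, Real.sin_add_pi,
      Real.cos_pi_div_three, Real.sin_pi_div_three, Real.cos_zero, Real.sin_zero] at h
    linarith
  have hcc : c = 2 * Real.pi * ((k3 - k2 : ℤ) : ℝ) := by
    push_cast
    linarith
  refine ⟨⟨-b / 2, a / 2⟩, fun t => ?_⟩
  rw [hφ, chi_node, hcab, hcc]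
  have e : Complex.I * ((2 * Real.pi * ((k3 - k2 : ℤ) : ℝ) + a * Real.cos (2 * Real.pi * t) +
      b * Real.sin (2 * Real.pi * t) : ℝ) : ℂ) =
      Complex.I * ((2 * (a / 2) * Real.cos (2 * Real.pi * t) -
      2 * (-b / 2) * Real.sin (2 * Real.pi * t) : ℝ) : ℂ) +
      ((k3 - k2 : ℤ) : ℂ) * (2 * Real.pi * Complex.I) := by
    push_cast
    ring
  rw [e, Complex.exp_add, Complex.exp_int_mul_two_pi_mul_I, mul_one]

/-- The bad points: the points of `Z` modulo `1`. -/
def badSet (Z : Finset ℝ) : Set ℝ := {t | ∃ z ∈ Z, ∃ k : ℤ, t = z + k}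

theorem badSet_add_one (Z : Finset ℝ) (t : ℝ) (h : t + 1 ∈ badSet Z) : t ∈ badSet Z := by
  obtain ⟨z, hz, k, hk⟩ := h
  exact ⟨z, hz, k - 1, by push_cast; linarith⟩

theorem badSet_eq (Z : Finset ℝ) :
    badSet Z = ⋃ z ∈ Z, Set.range (fun k : ℤ => z + (k : ℝ)) := by
  ext t
  simp only [badSet, Set.mem_ofPred_eq, Set.mem_iUnion, Set.mem_range, exists_prop]
  constructor
  · rintro ⟨z, hz, k, hk⟩
    exact ⟨z, hz, k, hk.symm⟩
  · rintro ⟨z, hz, k, hk⟩
    exact ⟨z, hz, k, hk.symm⟩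

theorem badSet_countable (Z : Finset ℝ) : (badSet Z).Countable := by
  rw [badSet_eq]
  exact Set.Countable.biUnion Z.countable_toSet fun z _ => Set.countable_range _

theorem badSet_closed (Z : Finset ℝ) : IsClosed (badSet Z) := by
  rw [badSet_eq]
  refine Z.finite_toSet.isClosed_biUnion fun z _ => ?_
  have h1 : Set.range (fun k : ℤ => z + (k : ℝ)) =
      (fun x : ℝ => x - z) ⁻¹' (Set.range ((↑) : ℤ → ℝ)) := by
    ext t
    simp only [Set.mem_range, Set.mem_preimage]
    constructor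
    · rintro ⟨k, rfl⟩
      exact ⟨k, by ring⟩
    · rintro ⟨k, hk⟩
      exact ⟨k, by rw [hk]; ring⟩
  rw [h1]
  exact Int.isClosedEmbedding_coe_real.isClosed_range.preimage (by fun_prop)

theorem badSet_null (Z : Finset ℝ) : ∀ᵐ t : ℝ, t ∉ badSet Z :=
  (badSet_countable Z).ae_notMem volume

theorem dense_good (Z : Finset ℝ) : Dense (badSet Z)ᶜ :=
  (badSet_countable Z).dense_compl ℝ

/-- For every point there are arbitrarily large primes `p` such that the other points of the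
coset of `(1/p)ℤ` are good. -/
theorem exists_good_prime (Z : Finset ℝ) (t : ℝ) (n0 : ℕ) :
    ∃ p : ℕ, p.Prime ∧ n0 < p ∧ ∀ i : ℕ, 1 ≤ i → i < p → t + i / p ∉ badSet Z := by
  by_contra hcon
  push Not at hcon
  have hsp : ∀ p : ℕ, p.Prime → n0 < p → ∃ z ∈ Z, ∃ i : ℕ, 1 ≤ i ∧ i < p ∧
      ∃ k : ℤ, t + i / p = z + k := by
    intro p hp hn
    obtain ⟨i, h1, h2, z, hz, k, hk⟩ := hcon p hp hn
    exact ⟨z, hz, i, h1, h2, k, hk⟩
  choose! f hf using hsp
  have hinj : Set.InjOn f {p : ℕ | p.Prime ∧ n0 < p} := by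
    intro p hp q hq hpq
    obtain ⟨-, i, hi1, hi2, k, hk⟩ := hf p hp.1 hp.2
    obtain ⟨-, j, hj1, hj2, l, hl⟩ := hf q hq.1 hq.2
    have hp0 : (p : ℝ) ≠ 0 := Nat.cast_ne_zero.2 hp.1.ne_zero
    have hq0 : (q : ℝ) ≠ 0 := Nat.cast_ne_zero.2 hq.1.ne_zero
    have h1 : (i : ℝ) / p - j / q = ((k - l : ℤ) : ℝ) := by
      push_cast
      rw [hpq] at hk
      linarith
    have h2 : (i : ℝ) * q = p * (j + (k - l : ℤ) * q) := by
      field_simp at h1
      linarith
    have h3 : (i : ℤ) * q = p * (j + (k - l) * q) := by exact_mod_cast h2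
    have h4 : (p : ℤ) ∣ i * q := ⟨_, h3⟩
    have h5 : p ∣ i * q := by exact_mod_cast h4
    rcases hp.1.dvd_mul.1 h5 with h6 | h6
    · exact absurd (Nat.le_of_dvd hi1 h6) (not_le.2 hi2)
    · exact (Nat.prime_dvd_prime_iff_eq hp.1 hq.1).1 h6
  have hmaps : Set.MapsTo f {p : ℕ | p.Prime ∧ n0 < p} (Z : Set ℝ) := by
    intro p hp
    exact (hf p hp.1 hp.2).1
  have hfin : Set.Finite {p : ℕ | p.Prime ∧ n0 < p} :=
    Set.Finite.of_injOn hmaps hinj Z.finite_toSet
  obtain ⟨p, hp1, hp2⟩ := Nat.exists_infinite_primes (hfin.toFinset.sup id + n0 + 1)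
  have hmem : p ∈ hfin.toFinset := by
    rw [Set.Finite.mem_toFinset]
    exact ⟨hp2, by omega⟩
  have := Finset.le_sup (f := id) hmem
  simp only [id] at this
  omega

/-- An almost everywhere identity holds at the points of continuity. -/
theorem eq_of_ae {f g : ℝ → ℂ} {t : ℝ} (hf : ContinuousAt f t) (hg : ContinuousAt g t)
    (h : ∀ᵐ s : ℝ, f s = g s) : f t = g t := by
  by_contra hne
  have h1 : ∀ᶠ s in 𝓝 t, f s ≠ g s := by
    have h2 : ContinuousAt (fun s => f s - g s) t := hf.sub hg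
    have h3 : f t - g t ≠ 0 := sub_ne_zero.2 hne
    filter_upwards [h2.eventually_ne h3] with s hs
    exact sub_ne_zero.1 hs
  obtain ⟨U, hU, hUo, htU⟩ := eventually_nhds_iff.1 h1
  have h4 : volume U = 0 := by
    refine measure_mono_null ?_ h
    intro s hs
    exact hU s hs
  exact (hUo.measure_pos volume ⟨t, htU⟩).ne' h4

/-- The product relation at the points with a good coset. -/
theorem prod_of_good (Z : Finset ℝ) (ze : ℝ → ℂ)
    (hcont : ∀ t, t ∉ badSet Z → ContinuousAt ze t) (p : ℕ)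
    (hprod : ∀ᵐ t : ℝ, ∏ i ∈ Finset.range p, ze (t + i / p) = 1) (t : ℝ)
    (ht : ∀ i < p, t + i / p ∉ badSet Z) : ∏ i ∈ Finset.range p, ze (t + i / p) = 1 := by
  refine eq_of_ae (f := fun t => ∏ i ∈ Finset.range p, ze (t + i / p)) (g := fun _ => 1)
    ?_ continuousAt_const hprod
  refine tendsto_finsetProd _ fun i hi => ?_
  have h1 := hcont _ (ht i (Finset.mem_range.1 hi))
  exact ContinuousAt.comp (f := fun s : ℝ => s + i / p) (g := ze) h1 (by fun_prop)

/-- **Rigidity.** -/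
theorem rigidity (Z : Finset ℝ) (ze : ℝ → ℂ)
    (hcont : ∀ t, t ∉ badSet Z → ContinuousAt ze t)
    (hnorm : ∀ᵐ t : ℝ, ‖ze t‖ = 1)
    (hprod : ∀ p : ℕ, p.Prime → ∀ᵐ t : ℝ, ∏ i ∈ Finset.range p, ze (t + i / p) = 1) :
    ∃ τ : ℂ, ∀ t, t ∉ badSet Z → ze t = chi τ (node t) := by
  have hopen : IsOpen (badSet Z)ᶜ := (badSet_closed Z).isOpen_compl
  have hlim : ∀ t, ∃ y, Filter.Tendsto ze (𝓝[(badSet Z)ᶜ] t) (𝓝 y) := by
    intro t
    obtain ⟨p, hp, -, hgood⟩ := exists_good_prime Z t 1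
    set P : ℝ → ℂ := fun s => ∏ i ∈ (Finset.range p).erase 0, ze (s + i / p) with hP
    have hPc : ContinuousAt P t := by
      refine tendsto_finsetProd _ fun i hi => ?_
      rw [Finset.mem_erase, Finset.mem_range] at hi
      have h1 := hcont _ (hgood i (Nat.pos_of_ne_zero hi.1) hi.2)
      exact ContinuousAt.comp (f := fun s : ℝ => s + i / p) (g := ze) h1 (by fun_prop)
    have hnear : ∀ᶠ s in 𝓝 t, ∀ i ∈ (Finset.range p).erase 0, s + (i : ℝ) / p ∉ badSet Z := by
      rw [Filter.eventually_all_finset]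
      intro i hi
      rw [Finset.mem_erase, Finset.mem_range] at hi
      have h1 : (badSet Z)ᶜ ∈ 𝓝 (t + (i : ℝ) / p) :=
        hopen.mem_nhds (hgood i (Nat.pos_of_ne_zero hi.1) hi.2)
      have h2 : ContinuousAt (fun s : ℝ => s + (i : ℝ) / p) t := by fun_prop
      exact h2 h1
    have hrel : ∀ᶠ s in 𝓝[(badSet Z)ᶜ] t, ze s * P s = 1 := by
      filter_upwards [self_mem_nhdsWithin, mem_nhdsWithin_of_mem_nhds hnear] with s hs hs'
      have h0 : (0 : ℕ) ∈ Finset.range p := Finset.mem_range.2 hp.pos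
      have h1 := prod_of_good Z ze hcont p (hprod p hp) s (by
        intro i hi
        rcases Nat.eq_zero_or_pos i with h | h
        · rw [h]
          simpa using hs
        · exact hs' i (Finset.mem_erase.2 ⟨h.ne', Finset.mem_range.2 hi⟩))
      rw [← Finset.mul_prod_erase _ _ h0] at h1
      simpa using h1
    have hPt : P t ≠ 0 := by
      intro h0
      have h3 : Filter.Tendsto (fun s => ‖P s‖) (𝓝 t) (𝓝 ‖P t‖) := hPc.norm
      rw [h0, norm_zero] at h3
      -- near `t` the norm of `P` is `1` almost everywhere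
      have h4 : ∀ᵐ s : ℝ, ‖P s‖ = 1 := by
        have h5 : ∀ i ∈ (Finset.range p).erase 0, ∀ᵐ s : ℝ, ‖ze (s + (i : ℝ) / p)‖ = 1 := by
          intro i _
          exact (measurePreserving_add_right volume ((i : ℝ) / p)).quasiMeasurePreserving.ae
            hnorm
        have h6 : ∀ᵐ s : ℝ, ∀ i ∈ (Finset.range p).erase 0, ‖ze (s + (i : ℝ) / p)‖ = 1 :=
          (Finset.eventually_all _).2 h5
        filter_upwards [h6] with s hs
        rw [hP]
        simp only
        rw [norm_prod]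
        exact Finset.prod_eq_one hs
      have h5 : ∀ᶠ s in 𝓝 t, ‖P s‖ ≠ 1 := by
        have := h3.eventually_ne (zero_ne_one (α := ℝ))
        exact this
      obtain ⟨U, hU, hUo, htU⟩ := eventually_nhds_iff.1 h5
      have h6 : volume U = 0 := measure_mono_null (fun s hs => hU s hs) h4
      exact (hUo.measure_pos volume ⟨t, htU⟩).ne' h6
    refine ⟨(P t)⁻¹, ?_⟩
    have h7 : Filter.Tendsto (fun s => (P s)⁻¹) (𝓝[(badSet Z)ᶜ] t) (𝓝 (P t)⁻¹) :=
      (hPc.tendsto.mono_left nhdsWithin_le_nhds).inv₀ hPt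
    refine h7.congr' ?_
    filter_upwards [hrel] with s hs
    exact (eq_inv_of_mul_eq_one_left hs).symm
  set E := extendFrom (badSet Z)ᶜ ze with hE
  have hEc : Continuous E := continuous_extendFrom (dense_good Z) hlim
  have hEeq : ∀ t, t ∉ badSet Z → E t = ze t := by
    intro t ht
    refine extendFrom_eq ((dense_good Z) t) ?_
    exact (hcont t ht).tendsto.mono_left nhdsWithin_le_nhds
  have hEae : ∀ᵐ t : ℝ, E t = ze t := by
    filter_upwards [badSet_null Z] with t ht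
    exact hEeq t ht
  have hEnorm : ∀ t, ‖E t‖ = 1 := by
    have h1 : (fun t => ‖E t‖) =ᵐ[volume] fun _ => (1 : ℝ) := by
      filter_upwards [hEae, hnorm] with t h1 h2
      rw [h1, h2]
    exact congrFun ((hEc.norm.ae_eq_iff_eq (μ := volume) continuous_const).1 h1)
  have hEprod : ∀ p : ℕ, p.Prime → ∀ t, ∏ i ∈ Finset.range p, E (t + i / p) = 1 := by
    intro p hp
    have h1 : (fun t => ∏ i ∈ Finset.range p, E (t + i / p)) =ᵐ[volume] fun _ => (1 : ℂ) := by
      have h2 : ∀ᵐ s : ℝ, ∀ i ∈ Finset.range p, E (s + (i : ℝ) / p) = ze (s + (i : ℝ) / p) := by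
        rw [Filter.eventually_all_finset]
        intro i _
        exact (measurePreserving_add_right volume ((i : ℝ) / p)).quasiMeasurePreserving.ae hEae
      filter_upwards [h2, hprod p hp] with s hs hs'
      rw [← hs']
      exact Finset.prod_congr rfl hs
    have hc' : Continuous fun t : ℝ => ∏ i ∈ Finset.range p, E (t + i / p) :=
      continuous_finsetProd _ fun i _ => hEc.comp (by fun_prop)
    exact congrFun ((hc'.ae_eq_iff_eq (μ := volume) continuous_const).1 h1)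
  obtain ⟨τ, hτ⟩ := rigidity_continuous E hEc hEnorm hEprod
  exact ⟨τ, fun t ht => by rw [← hEeq t ht, hτ]⟩

end Pool.Agent.Helper79.HRT
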