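import Mathlib
import Pool.Agent.Helper79.HRT.Modes
import Pool.Agent.Helper79.HRT.Rigid

/-!
# Prime cosets and uniform convergence at the nodes `k / N`

The engines of L20.3 (`coset_uniform_one`) and L20.7 (`coset_uniform_zero`).
-/

open scoped BigOperators ComplexConjugate Topology
open MeasureTheory Filter

namespace Pool.Agent.Helper79.HRT

/-- `t` has distance at least `δ` from the bad points. -/
def Far (Z : Finset ℝ) (δ t : ℝ) : Prop := ∀ z ∈ Z, ∀ k : ℤ, δ ≤ |t - (z + k)|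

theorem Far.mono {Z : Finset ℝ} {δ δ' t : ℝ} (h : Far Z δ t) (hd : δ' ≤ δ) : Far Z δ' t :=
  fun z hz k => hd.trans (h z hz k)

theorem Far.good {Z : Finset ℝ} {δ t : ℝ} (h : Far Z δ t) (hd : 0 < δ) : t ∉ badSet Z := by
  rintro ⟨z, hz, k, hk⟩
  have := h z hz k
  rw [hk, sub_self, abs_zero] at this
  linarith

theorem Far.near {Z : Finset ℝ} {δ r t s : ℝ} (h : Far Z δ t) (hs : |s - t| ≤ r) :
    Far Z (δ - r) s := by
  intro z hz k
  have h1 := h z hz k
  have h2 : |t - (z + k)| ≤ |s - t| + |s - (z + k)| := by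
    calc |t - (z + k)| = |(s - (z + k)) - (s - t)| := by congr 1; ring
      _ ≤ |s - (z + k)| + |s - t| := abs_sub _ _
      _ = _ := add_comm _ _
  linarith

theorem Far.add_int {Z : Finset ℝ} {δ t : ℝ} (h : Far Z δ t) (n : ℤ) : Far Z δ (t + n) := by
  intro z hz k
  have h1 := h z hz (k - n)
  have e : t + n - (z + k) = t - (z + ((k - n : ℤ) : ℝ)) := by push_cast; ring
  rw [e]
  exact h1

theorem exists_far (Z : Finset ℝ) (t : ℝ) (h : t ∉ badSet Z) : ∃ δ : ℝ, 0 < δ ∧ Far Z δ t := by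
  obtain ⟨ε, hε, hb⟩ := Metric.isOpen_iff.1 (badSet_closed Z).isOpen_compl t h
  refine ⟨ε, hε, fun z hz k => ?_⟩
  by_contra hcon
  push Not at hcon
  have h1 : z + (k : ℝ) ∈ Metric.ball t ε := by
    rw [Metric.mem_ball, Real.dist_eq, abs_sub_comm]
    exact hcon
  exact hb h1 ⟨z, hz, k, rfl⟩

theorem exists_far_finset (Z : Finset ℝ) {ι : Type} (s : Finset ι) (t : ι → ℝ)
    (h : ∀ i ∈ s, t i ∉ badSet Z) : ∃ δ : ℝ, 0 < δ ∧ ∀ i ∈ s, Far Z δ (t i) := by
  classical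
  induction s using Finset.induction_on with
  | empty => exact ⟨1, one_pos, fun i hi => absurd hi (Finset.notMem_empty i)⟩
  | insert a s ha ih =>
    obtain ⟨δ, hδ, h1⟩ := ih fun i hi => h i (Finset.mem_insert_of_mem hi)
    obtain ⟨δ', hδ', h2⟩ := exists_far Z (t a) (h a (Finset.mem_insert_self a s))
    refine ⟨min δ δ', lt_min hδ hδ', fun i hi => ?_⟩
    rcases Finset.mem_insert.1 hi with rfl | hi
    · exact h2.mono (min_le_right _ _)
    · exact (h1 i hi).mono (min_le_left _ _)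

/-- C1. A finite set of primes which is good for all points, uniformly. -/
theorem uniform_good_prime (Z : Finset ℝ) : ∃ (P : Finset ℕ) (δ : ℝ), 0 < δ ∧
    (∀ p ∈ P, p.Prime) ∧
      ∀ t : ℝ, ∃ p ∈ P, ∀ i : ℕ, 1 ≤ i → i < p → Far Z δ (t + i / p) := by
  classical
  have hloc : ∀ t : ℝ, ∃ (p : ℕ) (r : ℝ), 0 < r ∧ p.Prime ∧ ∀ s : ℝ, |s - t| < r →
      ∀ i : ℕ, 1 ≤ i → i < p → Far Z r (s + i / p) := by
    intro t
    obtain ⟨p, hp, -, hgood⟩ := exists_good_prime Z t 1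
    obtain ⟨δ, hδ, h1⟩ := exists_far_finset Z ((Finset.range p).erase 0)
      (fun i : ℕ => t + (i : ℝ) / p) (by
        intro i hi
        rw [Finset.mem_erase, Finset.mem_range] at hi
        exact hgood i (Nat.pos_of_ne_zero hi.1) hi.2)
    refine ⟨p, δ / 2, by positivity, hp, fun s hs i hi1 hi2 => ?_⟩
    have h2 := h1 i (Finset.mem_erase.2 ⟨by omega, Finset.mem_range.2 hi2⟩)
    have h3 := h2.near (s := s + (i : ℝ) / p) (r := δ / 2) (by
      have : s + (i : ℝ) / p - (t + (i : ℝ) / p) = s - t := by ring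
      rw [this]
      exact hs.le)
    exact h3.mono (by linarith)
  choose p r hr hp hpr using hloc
  obtain ⟨T, -, hT⟩ := (isCompact_Icc (a := (0 : ℝ)) (b := 1)).elim_nhds_subcover
    (fun t => Metric.ball t (r t)) (fun t _ => Metric.ball_mem_nhds t (hr t))
  have hmin : ∃ δ : ℝ, 0 < δ ∧ ∀ t ∈ T, δ ≤ r t := by
    rcases T.eq_empty_or_nonempty with h | h
    · exact ⟨1, one_pos, by simp [h]⟩
    · obtain ⟨t0, ht0, hle⟩ := T.exists_min_image r h
      exact ⟨r t0, hr t0, hle⟩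
  obtain ⟨δ, hδ, hδT⟩ := hmin
  refine ⟨T.image p, δ, hδ, ?_, ?_⟩
  · intro q hq
    obtain ⟨t, -, rfl⟩ := Finset.mem_image.1 hq
    exact hp t
  · intro t
    have h1 : Int.fract t ∈ Set.Icc (0 : ℝ) 1 := ⟨Int.fract_nonneg t, (Int.fract_lt_one t).le⟩
    obtain ⟨x, hx, hx'⟩ := Set.mem_iUnion₂.1 (hT h1)
    refine ⟨p x, Finset.mem_image_of_mem p hx, fun i hi1 hi2 => ?_⟩
    rw [Metric.mem_ball, Real.dist_eq] at hx'
    have h2 := (hpr x _ hx' i hi1 hi2).mono (hδT x hx)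
    have h3 := h2.add_int ⌊t⌋
    have e : Int.fract t + (i : ℝ) / (p x : ℕ) + (⌊t⌋ : ℝ) = t + (i : ℝ) / (p x : ℕ) := by
      have := Int.fract_add_floor t
      linarith
    rw [e] at h3
    exact h3

/-- A product of numbers of modulus one is near `1` if the factors are. -/
theorem norm_prod_sub_one {ι : Type} (s : Finset ι) (x : ι → ℂ) (h : ∀ i ∈ s, ‖x i‖ = 1) :
    ‖∏ i ∈ s, x i - 1‖ ≤ ∑ i ∈ s, ‖x i - 1‖ := by
  classical
  induction s using Finset.induction_on with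
  | empty => simp
  | insert a s ha ih =>
    rw [Finset.prod_insert ha, Finset.sum_insert ha]
    have h1 : x a * ∏ i ∈ s, x i - 1 = x a * (∏ i ∈ s, x i - 1) + (x a - 1) := by ring
    rw [h1]
    refine (norm_add_le _ _).trans ?_
    rw [norm_mul, h a (Finset.mem_insert_self a s), one_mul, add_comm]
    exact add_le_add le_rfl (ih fun i hi => h i (Finset.mem_insert_of_mem hi))

/-- The other points of the coset of a node are nodes. -/
theorem node_shift (N : ℕ) (hN : N ≠ 0) (p : ℕ) (hp : p ≠ 0) (hd : p ∣ N) (k : ℤ) (i : ℕ) :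
    ∃ k' : ℤ, (k : ℝ) / N + i / p = (k' : ℝ) / N := by
  obtain ⟨q, rfl⟩ := hd
  have hp' : (p : ℝ) ≠ 0 := Nat.cast_ne_zero.2 hp
  have hq : q ≠ 0 := by rintro rfl; simp at hN
  have hq' : (q : ℝ) ≠ 0 := Nat.cast_ne_zero.2 hq
  refine ⟨k + i * q, ?_⟩
  push_cast
  field_simp

/-- C2 (L20.3). Uniform convergence to `1` on the good nodes implies uniform convergence to `1`
on all nodes. -/
theorem coset_uniform_one (Z : Finset ℝ) (N : ℕ → ℕ) (hN0 : ∀ᶠ j in atTop, N j ≠ 0)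
    (hN : ∀ p : ℕ, p.Prime → ∀ᶠ j in atTop, p ∣ N j) (x : ℕ → ℝ → ℂ)
    (hnorm : ∀ j, ∀ t, ‖x j t‖ = 1)
    (hprod : ∀ p : ℕ, p.Prime → ∀ᶠ j in atTop, ∀ k : ℤ,
      ∏ i ∈ Finset.range p, x j ((k : ℝ) / N j + i / p) = 1)
    (hgood : ∀ δ : ℝ, 0 < δ → ∀ ε : ℝ, 0 < ε → ∀ᶠ j in atTop, ∀ k : ℤ,
      Far Z δ ((k : ℝ) / N j) → ‖x j ((k : ℝ) / N j) - 1‖ ≤ ε) :
    ∀ ε : ℝ, 0 < ε → ∀ᶠ j in atTop, ∀ k : ℤ, ‖x j ((k : ℝ) / N j) - 1‖ ≤ ε := by
  intro ε hε
  obtain ⟨P, δ, hδ, hP, hcov⟩ := uniform_good_prime Z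
  -- a bound for the primes
  set M : ℕ := P.sup id + 1 with hM
  have hM0 : (0 : ℝ) < M := by positivity
  have hdiv : ∀ᶠ j in atTop, ∀ p ∈ P, p ∣ N j := by
    rw [Filter.eventually_all_finset]
    exact fun p hp => hN p (hP p hp)
  have hpr : ∀ᶠ j in atTop, ∀ p ∈ P, ∀ k : ℤ,
      ∏ i ∈ Finset.range p, x j ((k : ℝ) / N j + i / p) = 1 := by
    rw [Filter.eventually_all_finset]
    exact fun p hp => hprod p (hP p hp)
  filter_upwards [hN0, hdiv, hpr, hgood δ hδ (ε / M) (by positivity)] with j h0 h1 h2 h3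
  intro k
  obtain ⟨p, hp, hfar⟩ := hcov ((k : ℝ) / N j)
  have hprod' := h2 p hp k
  have hp0 : (0 : ℕ) ∈ Finset.range p := Finset.mem_range.2 (hP p hp).pos
  rw [← Finset.mul_prod_erase _ _ hp0] at hprod'
  have e0 : (k : ℝ) / N j + ((0 : ℕ) : ℝ) / p = (k : ℝ) / N j := by simp
  rw [e0] at hprod'
  set Q : ℂ := ∏ i ∈ (Finset.range p).erase 0, x j ((k : ℝ) / N j + i / p) with hQ
  have hQn : ‖Q‖ = 1 := by
    rw [hQ, norm_prod]
    exact Finset.prod_eq_one fun i _ => hnorm j _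
  have h4 : ‖x j ((k : ℝ) / N j) - 1‖ = ‖Q - 1‖ := by
    have h5 : x j ((k : ℝ) / N j) - 1 = -(x j ((k : ℝ) / N j) * (Q - 1)) := by
      rw [mul_sub, hprod', mul_one]
      ring
    rw [h5, norm_neg, norm_mul, hnorm, one_mul]
  rw [h4]
  calc ‖Q - 1‖ ≤ ∑ i ∈ (Finset.range p).erase 0, ‖x j ((k : ℝ) / N j + i / p) - 1‖ :=
        norm_prod_sub_one _ _ fun i _ => hnorm j _
    _ ≤ ∑ i ∈ (Finset.range p).erase 0, ε / M := by
        refine Finset.sum_le_sum fun i hi => ?_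
        rw [Finset.mem_erase, Finset.mem_range] at hi
        obtain ⟨k', hk'⟩ := node_shift (N j) h0 p (hP p hp).ne_zero (h1 p hp) k i
        have h6 := hfar i (Nat.pos_of_ne_zero hi.1) hi.2
        rw [hk'] at h6 ⊢
        exact h3 k' h6
    _ ≤ M * (ε / M) := by
        rw [Finset.sum_const, nsmul_eq_mul]
        gcongr
        have h7 : ((Finset.range p).erase 0).card ≤ p := by
          calc _ ≤ (Finset.range p).card := Finset.card_erase_le
            _ = p := Finset.card_range p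
        have h8 : p ≤ P.sup id := Finset.le_sup (f := id) hp
        omega
    _ = ε := by field_simp

end Pool.Agent.Helper79.HRT
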