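import Mathlib
import Pool.Agent.Helper79.HRT.Coset

/-!
# The engine of L20.7

Real functions on the nodes with vanishing prime coset sums and small first mode, which converge
uniformly on the good nodes to a function continuous off a finite set modulo `1`, converge
uniformly to `0`.
-/

open scoped BigOperators ComplexConjugate Topology
open MeasureTheory Filter

namespace Pool.Agent.Helper79.HRT

/-- Riemann sums of a continuous function. -/
theorem riemann_sum (g : ℝ → ℂ) (hg : Continuous g) (N : ℕ → ℕ)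
    (hN : Tendsto N atTop atTop) :
    Tendsto (fun j => (∑ k ∈ Finset.range (N j), g ((k : ℝ) / N j)) / (N j : ℂ)) atTop
      (𝓝 (∫ t in (0 : ℝ)..1, g t)) := by
  rw [Metric.tendsto_nhds]
  intro ε hε
  have huc : UniformContinuousOn g (Set.Icc (0 : ℝ) 1) :=
    isCompact_Icc.uniformContinuousOn_of_continuous hg.continuousOn
  rw [Metric.uniformContinuousOn_iff] at huc
  obtain ⟨δ, hδ, huc⟩ := huc (ε / 2) (by positivity)
  obtain ⟨n0, hn0⟩ := exists_nat_gt (1 / δ)
  filter_upwards [hN.eventually_ge_atTop (n0 + 1)] with j hj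
  have hNpos : (0 : ℝ) < N j := by
    have : 0 < N j := by omega
    exact_mod_cast this
  have hN0 : (N j : ℝ) ≠ 0 := hNpos.ne'
  have hNδ : 1 / (N j : ℝ) < δ := by
    rw [div_lt_iff₀ hNpos]
    have h1 : (n0 : ℝ) ≤ N j := by
      have : n0 ≤ N j := by omega
      exact_mod_cast this
    have h2 : 1 < δ * n0 := by
      rw [div_lt_iff₀ hδ] at hn0
      linarith
    nlinarith
  have hsplit : ∫ t in (0 : ℝ)..1, g t =
      ∑ k ∈ Finset.range (N j), ∫ t in ((k : ℝ) / N j)..(((k + 1 : ℕ) : ℝ) / N j), g t := by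
    have h1 := intervalIntegral.sum_integral_adjacent_intervals (μ := volume)
      (f := g) (a := fun k : ℕ => (k : ℝ) / N j) (n := N j)
      (fun k _ => hg.intervalIntegrable _ _)
    rw [h1]
    simp only [Nat.cast_zero, zero_div]
    rw [div_self hN0]
  have hterm : ∀ k ∈ Finset.range (N j),
      ‖g ((k : ℝ) / N j) / (N j : ℂ) -
        ∫ t in ((k : ℝ) / N j)..(((k + 1 : ℕ) : ℝ) / N j), g t‖ ≤ ε / 2 * (1 / N j) := by
    intro k hk
    rw [Finset.mem_range] at hk
    have hlen : (((k + 1 : ℕ) : ℝ) / N j) - ((k : ℝ) / N j) = 1 / N j := by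
      push_cast; ring
    have hle : (k : ℝ) / N j ≤ ((k + 1 : ℕ) : ℝ) / N j := by
      have : (0 : ℝ) ≤ 1 / N j := by positivity
      linarith
    have hconst : g ((k : ℝ) / N j) / (N j : ℂ) =
        ∫ _t in ((k : ℝ) / N j)..(((k + 1 : ℕ) : ℝ) / N j), g ((k : ℝ) / N j) := by
      rw [intervalIntegral.integral_const, hlen, Complex.real_smul]
      push_cast
      ring
    rw [hconst, ← intervalIntegral.integral_sub
      (continuous_const.intervalIntegrable _ _) (hg.intervalIntegrable _ _)]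
    have h1 := intervalIntegral.norm_integral_le_of_norm_le_const (C := ε / 2)
      (f := fun t => g ((k : ℝ) / N j) - g t) (a := (k : ℝ) / N j)
      (b := ((k + 1 : ℕ) : ℝ) / N j) (by
        intro t ht
        rw [Set.uIoc_of_le hle] at ht
        have hk1 : ((k + 1 : ℕ) : ℝ) / N j ≤ 1 := by
          rw [div_le_one hNpos]
          exact_mod_cast hk
        have hk0 : 0 ≤ (k : ℝ) / N j := by positivity
        have h2 := huc ((k : ℝ) / N j) ⟨hk0, by linarith⟩ t ⟨by linarith [ht.1], by linarith [ht.2]⟩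
          (by
            rw [Real.dist_eq, abs_sub_comm, abs_of_nonneg (by linarith [ht.1])]
            linarith [ht.2])
        rw [dist_eq_norm] at h2
        exact h2.le)
    rw [hlen, abs_of_nonneg (by positivity)] at h1
    exact h1
  rw [dist_eq_norm, hsplit, Finset.sum_div, ← Finset.sum_sub_distrib]
  calc _ ≤ ∑ k ∈ Finset.range (N j), ε / 2 * (1 / N j) :=
        norm_sum_le_of_le _ hterm
    _ = ε / 2 := by
        rw [Finset.sum_const, Finset.card_range, nsmul_eq_mul]
        field_simp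
    _ < ε := by linarith

/-- The nodes are dense. -/
theorem exists_node (N : ℕ → ℕ) (hN : Tendsto N atTop atTop) (t : ℝ) :
    ∃ k : ℕ → ℤ, Tendsto (fun j => (k j : ℝ) / N j) atTop (𝓝 t) := by
  refine ⟨fun j => ⌊t * N j⌋, ?_⟩
  have h1 : Tendsto (fun j => (N j : ℝ)) atTop atTop := tendsto_natCast_atTop_atTop.comp hN
  rw [Metric.tendsto_nhds]
  intro ε hε
  filter_upwards [h1.eventually_gt_atTop (1 / ε), h1.eventually_gt_atTop 0] with j hj hj0
  rw [Real.dist_eq, abs_sub_comm]
  have h2 := Int.floor_le (t * N j)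
  have h3 := Int.lt_floor_add_one (t * N j)
  have h4 : t - (⌊t * N j⌋ : ℝ) / N j = (t * N j - ⌊t * N j⌋) / N j := by
    field_simp
  rw [h4, abs_of_nonneg (div_nonneg (by linarith) hj0.le), div_lt_iff₀ hj0]
  rw [div_lt_iff₀ hε] at hj
  linarith

/-- C3 (L20.7). -/
theorem coset_uniform_zero (Z : Finset ℝ) (N : ℕ → ℕ) (hNt : Tendsto N atTop atTop)
    (hN : ∀ p : ℕ, p.Prime → ∀ᶠ j in atTop, p ∣ N j) (f : ℕ → ℝ → ℝ)
    (hsum : ∀ p : ℕ, p.Prime → ∀ᶠ j in atTop, ∀ k : ℤ,
      ∑ i ∈ Finset.range p, f j ((k : ℝ) / N j + i / p) = 0)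
    (hmode : Tendsto (fun j => (∑ k ∈ Finset.range (N j), (f j ((k : ℝ) / N j) : ℂ) *
      Complex.exp (-(2 * Real.pi * ((k : ℝ) / N j : ℝ) * Complex.I))) / (N j : ℂ)) atTop (𝓝 0))
    (S : ℝ → ℝ) (hS : ∀ t, t ∉ badSet Z → ContinuousAt S t)
    (hgood : ∀ δ : ℝ, 0 < δ → ∀ ε : ℝ, 0 < ε → ∀ᶠ j in atTop, ∀ k : ℤ,
      Far Z δ ((k : ℝ) / N j) → |f j ((k : ℝ) / N j) - S ((k : ℝ) / N j)| ≤ ε) :
    ∀ ε : ℝ, 0 < ε → ∀ᶠ j in atTop, ∀ k : ℤ, |f j ((k : ℝ) / N j)| ≤ ε := by
  have hN0 : ∀ᶠ j in atTop, N j ≠ 0 := by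
    filter_upwards [hNt.eventually_ge_atTop 1] with j hj
    omega
  -- Step A: coset sums of `S`
  have hSsum : ∀ p : ℕ, p.Prime → ∀ t : ℝ, (∀ i < p, t + (i : ℝ) / p ∉ badSet Z) →
      ∑ i ∈ Finset.range p, S (t + i / p) = 0 := by
    intro p hp t ht
    obtain ⟨δ, hδ, hfar⟩ := exists_far_finset Z (Finset.range p) (fun i : ℕ => t + (i : ℝ) / p)
      (fun i hi => ht i (Finset.mem_range.1 hi))
    obtain ⟨k, hk⟩ := exists_node N hNt t
    have hcont : Tendsto (fun j => ∑ i ∈ Finset.range p, S ((k j : ℝ) / N j + i / p)) atTop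
        (𝓝 (∑ i ∈ Finset.range p, S (t + i / p))) := by
      refine tendsto_finsetSum _ fun i hi => ?_
      have h1 : Tendsto (fun j => (k j : ℝ) / N j + (i : ℝ) / p) atTop (𝓝 (t + (i : ℝ) / p)) :=
        hk.add_const _
      exact (hS _ (ht i (Finset.mem_range.1 hi))).tendsto.comp h1
    have hzero : Tendsto (fun j => ∑ i ∈ Finset.range p, S ((k j : ℝ) / N j + i / p)) atTop
        (𝓝 0) := by
      rw [Metric.tendsto_nhds]
      intro ε hε
      have hp0 : (0 : ℝ) < p := by exact_mod_cast hp.pos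
      have hclose : ∀ᶠ j in atTop, |(k j : ℝ) / N j - t| ≤ δ / 2 := by
        have := (Metric.tendsto_nhds.1 hk) (δ / 2) (by positivity)
        filter_upwards [this] with j hj
        rw [Real.dist_eq] at hj
        exact hj.le
      filter_upwards [hN0, hN p hp, hsum p hp, hgood (δ / 2) (by positivity) (ε / (2 * p))
        (by positivity), hclose] with j h0 h1 h2 h3 h4
      rw [Real.dist_eq, sub_zero]
      have h5 := h2 (k j)
      have h6 : ∑ i ∈ Finset.range p, S ((k j : ℝ) / N j + i / p) =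
          -∑ i ∈ Finset.range p, (f j ((k j : ℝ) / N j + i / p) -
            S ((k j : ℝ) / N j + i / p)) := by
        rw [Finset.sum_sub_distrib, h5]
        ring
      rw [h6, abs_neg]
      calc |∑ i ∈ Finset.range p, (f j ((k j : ℝ) / N j + i / p) -
            S ((k j : ℝ) / N j + i / p))| ≤
          ∑ i ∈ Finset.range p, |f j ((k j : ℝ) / N j + i / p) -
            S ((k j : ℝ) / N j + i / p)| := Finset.abs_sum_le_sum_abs _ _
        _ ≤ ∑ i ∈ Finset.range p, ε / (2 * p) := by
            refine Finset.sum_le_sum fun i hi => ?_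
            obtain ⟨k', hk'⟩ := node_shift (N j) h0 p hp.ne_zero h1 (k j) i
            have h7 := (hfar i hi).near (s := (k j : ℝ) / N j + (i : ℝ) / p) (r := δ / 2) (by
              have : (k j : ℝ) / N j + (i : ℝ) / p - (t + (i : ℝ) / p) = (k j : ℝ) / N j - t := by
                ring
              rw [this]
              exact h4)
            rw [hk'] at h7 ⊢
            exact h3 k' (h7.mono (by linarith))
        _ = ε / 2 := by
            rw [Finset.sum_const, Finset.card_range, nsmul_eq_mul]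
            field_simp
        _ < ε := by linarith
    exact tendsto_nhds_unique hcont hzero
  -- Step B: the continuous extension
  have hopen : IsOpen (badSet Z)ᶜ := (badSet_closed Z).isOpen_compl
  have hlim : ∀ t, ∃ y, Tendsto S (𝓝[(badSet Z)ᶜ] t) (𝓝 y) := by
    intro t
    obtain ⟨p, hp, -, hg⟩ := exists_good_prime Z t 1
    set Q : ℝ → ℝ := fun s => ∑ i ∈ (Finset.range p).erase 0, S (s + i / p) with hQ
    have hQc : ContinuousAt Q t := by
      refine tendsto_finsetSum _ fun i hi => ?_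
      rw [Finset.mem_erase, Finset.mem_range] at hi
      have h1 := hS _ (hg i (Nat.pos_of_ne_zero hi.1) hi.2)
      exact ContinuousAt.comp (f := fun s : ℝ => s + i / p) (g := S) h1 (by fun_prop)
    have hnear : ∀ᶠ s in 𝓝 t, ∀ i ∈ (Finset.range p).erase 0, s + (i : ℝ) / p ∉ badSet Z := by
      rw [Filter.eventually_all_finset]
      intro i hi
      rw [Finset.mem_erase, Finset.mem_range] at hi
      have h1 : (badSet Z)ᶜ ∈ 𝓝 (t + (i : ℝ) / p) :=
        hopen.mem_nhds (hg i (Nat.pos_of_ne_zero hi.1) hi.2)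
      have h2 : ContinuousAt (fun s : ℝ => s + (i : ℝ) / p) t := by fun_prop
      exact h2 h1
    refine ⟨-Q t, ?_⟩
    have h7 : Tendsto (fun s => -Q s) (𝓝[(badSet Z)ᶜ] t) (𝓝 (-Q t)) :=
      (hQc.tendsto.mono_left nhdsWithin_le_nhds).neg
    refine h7.congr' ?_
    filter_upwards [self_mem_nhdsWithin, mem_nhdsWithin_of_mem_nhds hnear] with s hs hs'
    have h0 : (0 : ℕ) ∈ Finset.range p := Finset.mem_range.2 hp.pos
    have h1 := hSsum p hp s (by
      intro i hi
      rcases Nat.eq_zero_or_pos i with h | h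
      · rw [h]
        simpa using hs
      · exact hs' i (Finset.mem_erase.2 ⟨h.ne', Finset.mem_range.2 hi⟩))
    rw [← Finset.add_sum_erase _ _ h0] at h1
    have e0 : s + ((0 : ℕ) : ℝ) / p = s := by simp
    rw [e0] at h1
    linarith
  set E := extendFrom (badSet Z)ᶜ S with hE
  have hEc : Continuous E := continuous_extendFrom (dense_good Z) hlim
  have hEeq : ∀ t, t ∉ badSet Z → E t = S t := by
    intro t ht
    refine extendFrom_eq ((dense_good Z) t) ?_
    exact (hS t ht).tendsto.mono_left nhdsWithin_le_nhds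
  -- coset sums of `E`
  have hEsum : ∀ p : ℕ, p.Prime → ∀ t, ∑ i ∈ Finset.range p, E (t + i / p) = 0 := by
    intro p hp
    have h1 : (fun t => ∑ i ∈ Finset.range p, E (t + i / p)) =ᵐ[volume] fun _ => (0 : ℝ) := by
      have h2 : ∀ᵐ s : ℝ, ∀ i ∈ Finset.range p, s + (i : ℝ) / p ∉ badSet Z := by
        rw [Filter.eventually_all_finset]
        intro i _
        exact (measurePreserving_add_right volume ((i : ℝ) / p)).quasiMeasurePreserving.ae
          (badSet_null Z)
      filter_upwards [h2] with s hs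
      rw [← hSsum p hp s fun i hi => hs i (Finset.mem_range.2 hi)]
      exact Finset.sum_congr rfl fun i hi => hEeq _ (hs i hi)
    have hc' : Continuous fun t : ℝ => ∑ i ∈ Finset.range p, E (t + i / p) :=
      continuous_finsetSum _ fun i _ => hEc.comp (by fun_prop)
    exact congrFun ((hc'.ae_eq_iff_eq (μ := volume) continuous_const).1 h1)
  have hEper : Function.Periodic E 1 := by
    intro t
    have h1 := hEsum 2 Nat.prime_two t
    have h2 := hEsum 2 Nat.prime_two (t + 1 / 2)
    rw [Finset.sum_range_succ, Finset.sum_range_one] at h1 h2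
    have e1 : t + ((0 : ℕ) : ℝ) / ((2 : ℕ) : ℝ) = t := by simp
    have e2 : t + ((1 : ℕ) : ℝ) / ((2 : ℕ) : ℝ) = t + 1 / 2 := by norm_num
    have e3 : t + 1 / 2 + ((0 : ℕ) : ℝ) / ((2 : ℕ) : ℝ) = t + 1 / 2 := by simp
    have e4 : t + 1 / 2 + ((1 : ℕ) : ℝ) / ((2 : ℕ) : ℝ) = t + 1 := by push_cast; ring
    rw [e1, e2] at h1
    rw [e3, e4] at h2
    linarith
  -- Step D: uniform convergence to `E` on all nodes
  have hunif : ∀ ε : ℝ, 0 < ε → ∀ᶠ j in atTop, ∀ k : ℤ,
      |f j ((k : ℝ) / N j) - E ((k : ℝ) / N j)| ≤ ε := by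
    intro ε hε
    obtain ⟨P, δ, hδ, hP, hcov⟩ := uniform_good_prime Z
    set M : ℕ := P.sup id + 1 with hM
    have hM0 : (0 : ℝ) < M := by positivity
    have hdiv : ∀ᶠ j in atTop, ∀ p ∈ P, p ∣ N j := by
      rw [Filter.eventually_all_finset]
      exact fun p hp => hN p (hP p hp)
    have hpr : ∀ᶠ j in atTop, ∀ p ∈ P, ∀ k : ℤ,
        ∑ i ∈ Finset.range p, f j ((k : ℝ) / N j + i / p) = 0 := by
      rw [Filter.eventually_all_finset]
      exact fun p hp => hsum p (hP p hp)
    filter_upwards [hN0, hdiv, hpr, hgood δ hδ (ε / M) (by positivity)] with j h0 h1 h2 h3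
    intro k
    obtain ⟨p, hp, hfar⟩ := hcov ((k : ℝ) / N j)
    have hs1 := h2 p hp k
    have hs2 := hEsum p (hP p hp) ((k : ℝ) / N j)
    have hp0 : (0 : ℕ) ∈ Finset.range p := Finset.mem_range.2 (hP p hp).pos
    rw [← Finset.add_sum_erase _ _ hp0] at hs1 hs2
    have e0 : (k : ℝ) / N j + ((0 : ℕ) : ℝ) / p = (k : ℝ) / N j := by simp
    rw [e0] at hs1 hs2
    have h4 : f j ((k : ℝ) / N j) - E ((k : ℝ) / N j) =
        -∑ i ∈ (Finset.range p).erase 0, (f j ((k : ℝ) / N j + i / p) -
          E ((k : ℝ) / N j + i / p)) := by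
      rw [Finset.sum_sub_distrib]
      linarith
    rw [h4, abs_neg]
    calc |∑ i ∈ (Finset.range p).erase 0, (f j ((k : ℝ) / N j + i / p) -
          E ((k : ℝ) / N j + i / p))| ≤
        ∑ i ∈ (Finset.range p).erase 0, |f j ((k : ℝ) / N j + i / p) -
          E ((k : ℝ) / N j + i / p)| := Finset.abs_sum_le_sum_abs _ _
      _ ≤ ∑ i ∈ (Finset.range p).erase 0, ε / M := by
          refine Finset.sum_le_sum fun i hi => ?_
          rw [Finset.mem_erase, Finset.mem_range] at hi
          obtain ⟨k', hk'⟩ := node_shift (N j) h0 p (hP p hp).ne_zero (h1 p hp) k i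
          have h6 := hfar i (Nat.pos_of_ne_zero hi.1) hi.2
          rw [hk'] at h6 ⊢
          rw [hEeq _ (h6.good hδ)]
          exact h3 k' h6
      _ ≤ M * (ε / M) := by
          rw [Finset.sum_const, nsmul_eq_mul]
          gcongr
          have h7 : ((Finset.range p).erase 0).card ≤ p := by
            calc _ ≤ (Finset.range p).card := Finset.card_erase_le
              _ = p := Finset.card_range p
          have h8 : p ≤ P.sup id := Finset.le_sup (f := id) hp
          omega
      _ = ε := by field_simp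
  -- Step E: the first mode of `E` vanishes
  set g : ℝ → ℂ := fun t => (E t : ℂ) * Complex.exp (-(2 * Real.pi * t * Complex.I)) with hg
  have hgc : Continuous g := by
    rw [hg]
    fun_prop
  have hdiff : Tendsto (fun j =>
      (∑ k ∈ Finset.range (N j), (f j ((k : ℝ) / N j) : ℂ) *
        Complex.exp (-(2 * Real.pi * ((k : ℝ) / N j : ℝ) * Complex.I))) / (N j : ℂ) -
      (∑ k ∈ Finset.range (N j), g ((k : ℝ) / N j)) / (N j : ℂ)) atTop (𝓝 0) := by
    rw [Metric.tendsto_nhds]
    intro ε hε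
    filter_upwards [hN0, hunif (ε / 2) (by positivity)] with j h0 h1
    have hNp : (0 : ℝ) < N j := by
      have : 0 < N j := Nat.pos_of_ne_zero h0
      exact_mod_cast this
    rw [dist_zero_right, ← sub_div, ← Finset.sum_sub_distrib, norm_div, Complex.norm_natCast,
      div_lt_iff₀ hNp]
    calc ‖∑ k ∈ Finset.range (N j), ((f j ((k : ℝ) / N j) : ℂ) *
        Complex.exp (-(2 * Real.pi * ((k : ℝ) / N j : ℝ) * Complex.I)) - g ((k : ℝ) / N j))‖
        ≤ ∑ k ∈ Finset.range (N j), ε / 2 := by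
          refine norm_sum_le_of_le _ fun k _ => ?_
          have h2 : (f j ((k : ℝ) / N j) : ℂ) *
              Complex.exp (-(2 * Real.pi * ((k : ℝ) / N j : ℝ) * Complex.I)) - g ((k : ℝ) / N j) =
              ((f j ((k : ℝ) / N j) - E ((k : ℝ) / N j) : ℝ) : ℂ) *
              Complex.exp (-(2 * Real.pi * ((k : ℝ) / N j : ℝ) * Complex.I)) := by
            rw [hg]
            push_cast
            ring
          have h3 : ‖Complex.exp (-(2 * Real.pi * ((k : ℝ) / N j : ℝ) * Complex.I))‖ = 1 := by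
            have e2 : -(2 * (Real.pi : ℂ) * ((k : ℝ) / N j : ℝ) * Complex.I) =
                ((-(2 * Real.pi * ((k : ℝ) / N j)) : ℝ) : ℂ) * Complex.I := by
              push_cast; ring
            rw [e2, Complex.norm_exp_ofReal_mul_I]
          rw [h2, norm_mul, h3, mul_one, Complex.norm_real, Real.norm_eq_abs]
          have := h1 (k : ℤ)
          push_cast at this
          exact this
      _ = N j * (ε / 2) := by rw [Finset.sum_const, Finset.card_range, nsmul_eq_mul]
      _ < ε * N j := by nlinarith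
  have hzero : ∫ t in (0 : ℝ)..1, g t = 0 := by
    have h1 := riemann_sum g hgc N hNt
    have h2 := hmode.sub hdiff
    rw [sub_zero] at h2
    refine tendsto_nhds_unique h1 (h2.congr fun j => ?_)
    ring
  have hE0 : ∀ t, E t = 0 := eq_zero_of_modes E hEc hEper hEsum hzero
  intro ε hε
  filter_upwards [hunif ε hε] with j hj
  intro k
  have := hj k
  rwa [hE0, sub_zero] at this

end Pool.Agent.Helper79.HRT
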